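import Pool.Agent.X240.BM.Final

/-!
# The Breuil-Mezard conjecture for `GL_2(K)` as a system of four term relations

`K` is a finite extension of `ℚ_p` with residue degree `f` and ramification index `e`, residue field
`k`. The embeddings of `K` are numbered by the pairs `(a, b)`, `a < f`, `b < e`, such that the residue
embedding of `(a, b)` is the `p ^ a`-th power of that of `(0, 0)`. A Hodge type `λ` is replaced by the
pairs `ξ σ = (x, y) = (λ_1 + 1, λ_2)`, `x > y` (the Hodge-Tate weights).

`mult τ ξ` stands for the Hilbert-Samuel multiplicity of the special fibre of the potentially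
crystalline lifting ring of a fixed residual representation `r`; the theorem is true for arbitrary
numbers `mult τ ξ`. They are extended to all the families `ξ` of pairs of integers as an alternating
function `E τ ξ` (`altExt`): it changes its sign if the two members of one pair are interchanged.

Theorem. There are non-negative integers `μ_V(r)`, `V` the Serre weights, with
`mult τ ξ = ∑ n_{λ, τ}(V) μ_V(r)` for all `λ` and `τ` (Q1 for `r`) if and only if

(a) for all `τ`, all Hodge types and all embeddings `σ`, written `(x, y)` for the pair at `σ` and
`(x', y')` for the pair at `σ'`: if `σ = (a, 0)` and `σ' = (a + 1, 0)`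

  `E(x + p, y | x', y') + E(x, y + p | x', y') = E(x, y | x' + 1, y') + E(x, y | x', y' + 1)` and
  `E(x + p, y + p | x', y') = E(x, y | x' + 1, y' + 1)`,

and if `σ = (a, b)`, `b ≠ 0`, `σ' = (a, 0)`, the same equations with `1` instead of `p`;

(b) for each `τ` the finitely many identities which express `mult τ ξ` for the restricted `ξ` by the
`mult 1 ξ` for the restricted `ξ`, as the classes of the representations are expressed in the
Grothendieck group.

Nothing is to be supposed on the positivity of the solution, since the Serre weights are the
reductions of the algebraic representations with restricted `ξ`. The existence of the solution for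
the crystalline rings alone is equivalent to (a) for `τ = 1`.

The known facts on the Grothendieck ring of `GL_2(k)` which are used are collected in `WeightRing` and
in the hypothesis `hV`.
-/

set_option autoImplicit false

namespace Pool.Agent.Results.MP_39033f_nt.DifferenceEquations

open Pool.Agent.X240.BM

/-- The conjecture for one residual representation is equivalent to the four term relations (a) and
the identities (b) at the restricted weights; for the trivial type alone it is equivalent to (a). -/
theorem result (p f e : ℕ) [NeZero f] [NeZero e] (hp : p.Prime)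
    (W : Type) [Fintype W] [Nonempty W] (R : Type) [CommRing R]
    (D : WeightRing (Fin f × Fin e) W 1 nextEmb (step p) (0, 0) ((p : ℤ) ^ f - 1) R)
    (hV : ∀ V, ∃ ζ, Restricted (step p) (0, 0) ((p : ℤ) ^ f - 1) ζ ∧ D.cls ζ = D.serre V)
    (T : Type) (θ : T → R) (t₀ : T) (ht : θ t₀ = 1)
    (mult : T → Wt (Fin f × Fin e) 2 → ℕ) :
    ((∃ μ : W → ℕ, HasMultiplicities D θ mult μ) ↔
      (∀ τ, PairEq nextEmb (step p) fun ξ => (mult τ ξ : ℤ)) ∧
        RestrictedIdentities D θ (fun τ ξ => (mult τ ξ : ℤ)) t₀) ∧
    ((∃ μ : W → ℕ, HasCrystallineCycles D (fun ξ => (mult t₀ ξ : ℤ)) fun V => (μ V : ℤ)) ↔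
      PairEq nextEmb (step p) fun ξ => (mult t₀ ξ : ℤ)) := by
  have hS := shape_field p f e hp.two_le
  have hpos := positive_of_lift hS D hV (mult t₀)
  refine ⟨?_, ?_⟩
  · rw [multiplicities_iff hS D θ t₀ ht mult]
    simp only [pairEq_iff]
    exact ⟨fun h => ⟨h.1, h.2.1⟩, fun h => ⟨h.1, h.2, hpos⟩⟩
  · rw [pairEq_iff, ← crys_iff hS D]
    constructor
    · rintro ⟨μ, hμ⟩
      exact (crys_iff hS D _).mpr
        ((hodgeEq_iff _ _ _).mpr ((cycles_iff hS D (fun _ : Unit => (1 : R)) () rfl
          (fun _ ξ => (mult t₀ ξ : ℤ))).mp ⟨_, (crys_iff_cycles D _ _).mp hμ⟩ |>.1 ()))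
    · rintro ⟨c, hc, -⟩
      have hcV : ∀ V, 0 ≤ c V := by
        intro V
        obtain ⟨ζ, hζ, hζV⟩ := hV V
        have h1 := hc ζ (strictAnti_of_restricted hζ)
        rw [hζV] at h1
        have h2 : ∑ U, D.serre.repr (D.serre V) U • c U = c V := by
          rw [Finset.sum_eq_single V]
          · rw [Module.Basis.repr_self, Finsupp.single_eq_same, one_smul]
          · intro U _ hU
            rw [Module.Basis.repr_self, Finsupp.single_eq_of_ne hU, zero_smul]
          · intro h
            exact absurd (Finset.mem_univ _) h
        rw [h2] at h1
        rw [← h1]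
        exact Int.natCast_nonneg _
      refine ⟨fun V => (c V).toNat, ?_⟩
      have h3 : (fun V => (((c V).toNat : ℕ) : ℤ)) = c := by
        funext V
        exact Int.toNat_of_nonneg (hcV V)
      rw [h3]
      exact hc

end Pool.Agent.Results.MP_39033f_nt.DifferenceEquations
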