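import Pool.Agent.X240.BM.Types4

/-!
# The Breuil-Mezard conjecture for `GL_2(K)`: six term relations for the tame types

`K` is a finite extension of `ℚ_p` with residue degree `f` and ramification index `e`, residue field
`k` with `q = p ^ f` elements. The embeddings of `K` are numbered by the pairs `(a, b)`, `a < f`,
`b < e`, as in `DifferenceEquations`. A Hodge type `λ` is replaced by the pairs
`ξ σ = (λ_1 + 1, λ_2)` (the Hodge-Tate weights).

`mult₀ ξ` stands for the Hilbert-Samuel multiplicity of the special fibre of the crystalline lifting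
ring of a fixed residual representation `r`, and `mult τ ξ` for that of the potentially crystalline
lifting ring of type `τ`; the theorem is true for arbitrary numbers. They are extended to all the
families `ξ` of pairs of integers as alternating functions `E` and `E_τ` (`altExt`). For a pair
`(x, y)` let `ξ + (x, y)` be the family with `(x, y)` added at the embedding `(0, 0)`.

Theorem, first part. There are non-negative integers `μ_V(r)`, `V` the Serre weights, with the
property of the conjecture for the crystalline rings and for the rings of a given set of tame types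
`τ` (all Hodge types) if and only if

(a) `E` satisfies the relations with four terms (`PairEq`), in which the pairs at two neighbouring
embeddings are moved;

(b) for all these `τ` and all `ξ`, with `[x, y] = E(ξ + (x, y)) - E(ξ + (y, x))`,

  `E_τ(ξ + (1, 0)) - E_τ(ξ + (0, 1)) = [a + 1, b] + [b + q, a]` if `τ = ω ^ a ⊕ ω ^ b`,
  `E_τ(ξ + (1, 0)) - E_τ(ξ + (0, 1)) = [a, b + 1] + [b + q, a]` if
  `τ = ω_2 ^ (a + q b) ⊕ ω_2 ^ (b + q a)`,
  `E_τ(ξ + (1, 0)) - E_τ(ξ + (0, 1)) = [a + 1, a]` if `τ = ω ^ a ⊕ ω ^ a`,

where `ω` is the Teichmueller character at the embedding `(0, 0)` and `ω_2` is the one of the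
quadratic extension of `k`. So each of the two families of types is governed by one relation with six
terms and coefficients `1` and `-1`, although the multiplicities `n_{λ, τ}(V)` are complicated. No
identities with the numbers `n_{λ, τ}(V)` and no condition of positivity remain.

Second part. The same for all types: if the class of the reduction of `σ(τ)` is the combination
`∑ k [v]` of the classes `[v]` of the algebraic representations of the embedding `(0, 0)` with
parameters `v = (v_1, v_2) ≥ 0` (each class is such a combination), then the whole conjecture for `r`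
is equivalent to (a) and, for all nontrivial `τ`,

  `E_τ(ξ + (1, 0)) - E_τ(ξ + (0, 1)) = ∑ k (E(ξ + v) - E(ξ + (v_2, v_1)))`.

The known facts on the Grothendieck ring of `GL_2(k)` which are used are collected in `WeightRing`,
`hV` and `hone`, and in the formula `tameClass` for the reductions of the tame types.
-/

set_option autoImplicit false

namespace Pool.Agent.Results.MP_39033f_nt.TypeRelations

open Pool.Agent.X240.BM

/-- First part: crystalline rings and rings of tame types. Second part: all types. -/
theorem result (p f e : ℕ) [NeZero f] [NeZero e] (hp : p.Prime)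
    (W : Type) [Fintype W] [Nonempty W] (R : Type) [CommRing R]
    (D : WeightRing (Fin f × Fin e) W 1 nextEmb (step p) (0, 0) ((p : ℤ) ^ f - 1) R)
    (hV : ∀ V, ∃ ζ, Restricted (step p) (0, 0) ((p : ℤ) ^ f - 1) ζ ∧ D.cls ζ = D.serre V)
    (hone : D.cls (fun _ => rho 1) = 1) :
    (∀ (P : Type) (κ : P → Tame) (mult₀ : Wt (Fin f × Fin e) 2 → ℕ)
      (mult : P → Wt (Fin f × Fin e) 2 → ℕ),
      (∃ μ : W → ℕ, HasCrystallineCycles D (fun ξ => (mult₀ ξ : ℤ)) (fun V => (μ V : ℤ)) ∧
        HasMultiplicities D (fun x => tameClass D (p ^ f) (κ x)) mult μ) ↔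
      PairEq nextEmb (step p) (fun ξ => (mult₀ ξ : ℤ)) ∧
        ∀ x, SixTerm (0, 0) (p ^ f) (altExt fun ξ => (mult₀ ξ : ℤ))
          (altExt fun ξ => (mult x ξ : ℤ)) (κ x)) ∧
    (∀ (T : Type) (θ : T → R) (t₀ : T) (a : T → (Fin 2 → ℤ) →₀ ℤ), θ t₀ = 1 →
      (∀ τ, ∀ v ∈ (a τ).support, ∀ j, 0 ≤ v j) → (∀ τ, τ ≠ t₀ → θ τ = combClass D (a τ)) →
      ∀ mult : T → Wt (Fin f × Fin e) 2 → ℕ,
      (∃ μ : W → ℕ, HasMultiplicities D θ mult μ) ↔
      PairEq nextEmb (step p) (fun ξ => (mult t₀ ξ : ℤ)) ∧
        ∀ τ, τ ≠ t₀ → TypeRel (N := 1) (0, 0) (a τ) (altExt fun ξ => (mult t₀ ξ : ℤ))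
          (altExt fun ξ => (mult τ ξ : ℤ))) := by
  have hS := shape_field p f e hp.two_le
  exact ⟨fun P κ mult₀ mult => six_iff hS D hV hone (p ^ f) κ mult₀ mult,
    fun T θ t₀ a ht ha hθ mult => mult_rel_two hS D hV hone θ t₀ ht a ha hθ mult⟩

end Pool.Agent.Results.MP_39033f_nt.TypeRelations
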